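import Pool.Agent.Helper92.PW.St

/-! Project PW, module DET: six generic solutions of a patch lie on a quadratic cone. -/

set_option autoImplicit false
set_option linter.unusedVariables false

open Finset

noncomputable section

namespace Pool.Agent.Helper96.PW

open Pool.Agent.Helper92.PW

lemma z_ne {k : ℤ} {B β lam : ℝ} (hP : Par k B β lam) {p : Pt} (hp : Gen k B β p) :
    (p.2.2 : ℝ) ≠ 0 := by
  intro h
  have h1 := hp.z_gt
  rw [h, abs_zero] at h1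
  have := hP.B1
  linarith

/-- the row `ver p` is `z²` times the affine row -/
lemma ver_row {p : Pt} (hz : (p.2.2 : ℝ) ≠ 0) (j : Fin 6) :
    ((ver p j : ℤ) : ℝ) = (p.2.2 : ℝ) ^ 2 *
      ((![(xi p) ^ 2, xi p * et p, (et p) ^ 2, xi p, et p, 1] : Fin 6 → ℝ) j) := by
  fin_cases j <;> simp [ver, xi, et] <;> field_simp

theorem hDET (hSGN : StSGN) (hLOD : StLOD) (hDT6 : StDT6) : StDET := by
  intro k B β lam hP p0 hp0 p hp hxi
  have hB1 := hP.B1
  have hB0 : 0 < B := by linarith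
  have hb0 := hP.b0
  have hb1 := hP.b1
  have hl0 := hP.l0
  have hk1 := hP.k1
  have hkB := hP.kB
  have hlb := hP.lb
  have hb9 : β ^ 9 ≤ 1 := pow_le_one₀ hb0.le hb1
  have hl1 : lam ≤ 1 := by linarith
  have hBl : 16 ≤ B * lam := by linarith
  obtain ⟨⟨hx1, hx2, hy1, hy2⟩, heq0, he0⟩ := hSGN k B β lam hP p0 hp0
  set x := xi p0 with hx
  set y := et p0 with hy
  have hB3 : 0 < B ^ 3 := by positivity
  -- δ
  set δ : ℝ := 16 * |(k : ℝ)| / B ^ 3 with hδ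
  have hδ0 : 0 ≤ δ := by positivity
  have hδl : δ ≤ lam ^ 3 := by
    rw [hδ, div_le_iff₀ hB3]
    have h1 : B * lam ≤ (B * lam) ^ 3 := by
      have h2 : (1 : ℝ) ≤ (B * lam) ^ 2 := by nlinarith
      have h3 : 0 < B * lam := by positivity
      nlinarith
    calc 16 * |(k : ℝ)| ≤ B * lam := hkB
      _ ≤ (B * lam) ^ 3 := h1
      _ = lam ^ 3 * B ^ 3 := by ring
  have hδ2 : 8 * |(k : ℝ)| / B ^ 3 = δ / 2 := by rw [hδ]; ring
  have hl3 : lam ^ 3 ≤ 1 := pow_le_one₀ hl0.le hl1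
  have he0h : |(k : ℝ) / (p0.2.2 : ℝ) ^ 3| ≤ 1 / 2 := by
    rw [hδ2] at he0
    linarith
  obtain ⟨a1, a2, c, hL⟩ := hLOD β lam δ x y ((k : ℝ) / (p0.2.2 : ℝ) ^ 3) hb0 hb1 hl0 hl1 hδ0 hδl
    hx1 hx2 hy1 hy2 (by linarith) he0h
  set t : Fin 6 → ℝ := fun i => xi (p i) - x with ht
  set u : Fin 6 → ℝ := fun i => et (p i) - y with hu
  have hLi : ∀ i, |t i * (u i - a1 * t i)| ≤ 8 * lam ^ 3 / β ^ 6 ∧
      (u i - a1 * t i) ^ 2 ≤ 64 * lam ^ 4 / β ^ 12 ∧
      |(u i - a1 * t i) - a2 * t i ^ 2 - c * (t i * (u i - a1 * t i))| ≤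
        (δ + 419 * lam ^ 4) / β ^ 21 := by
    intro i
    obtain ⟨⟨hxi1, hxi2, hyi1, hyi2⟩, heqi, hei⟩ := hSGN k B β lam hP (p i) (hp i)
    have hxt : x + t i = xi (p i) := by simp [ht]
    have hyu : y + u i = et (p i) := by simp [hu]
    refine hL (t i) (u i) ((k : ℝ) / ((p i).2.2 : ℝ) ^ 3 - (k : ℝ) / (p0.2.2 : ℝ) ^ 3)
      (hxi i) ?_ (by rw [hxt]; exact hxi1) (by rw [hxt]; exact hxi2) (by rw [hyu]; exact hyi1)
      (by rw [hyu]; exact hyi2) ?_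
    · have h1 := abs_sub ((k : ℝ) / ((p i).2.2 : ℝ) ^ 3) ((k : ℝ) / (p0.2.2 : ℝ) ^ 3)
      rw [hδ2] at hei he0
      linarith
    · rw [← heqi, ← heq0, ← hxt, ← hyu]
      ring
  have hB9 : (0 : ℝ) < B ^ 9 := by positivity
  have hkpos : 0 < |(k : ℝ)| := by linarith
  have hb5 : (δ + 419 * lam ^ 4) / β ^ 21 ≤ 435 * |(k : ℝ)| / (B ^ 3 * β ^ 21) := by
    have h4 := hP.l4
    have h5 : lam ^ 4 ≤ |(k : ℝ)| / B ^ 3 := by
      rw [le_div_iff₀ hB3]
      linarith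
    have h6 : δ + 419 * lam ^ 4 ≤ 435 * |(k : ℝ)| / B ^ 3 := by
      have h7 : δ = 16 * (|(k : ℝ)| / B ^ 3) := by rw [hδ]; ring
      have h8 : 435 * |(k : ℝ)| / B ^ 3 = 435 * (|(k : ℝ)| / B ^ 3) := by ring
      rw [h7, h8]
      linarith
    have h9 : 435 * |(k : ℝ)| / (B ^ 3 * β ^ 21) = 435 * |(k : ℝ)| / B ^ 3 / β ^ 21 := by
      rw [div_div]
    rw [h9]
    exact div_le_div_of_nonneg_right h6 (by positivity)
  have hdet := hDT6 x y a1 a2 c lam (lam ^ 2) (8 * lam ^ 3 / β ^ 6) (64 * lam ^ 4 / β ^ 12)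
    (435 * |(k : ℝ)| / (B ^ 3 * β ^ 21)) t u hl0 (by positivity) (by positivity) (by positivity)
    (by positivity) (fun i => hxi i) (fun i => by
      have h := hxi i
      have h1 : |t i| ≤ lam := h
      have h2 : t i ^ 2 = |t i| ^ 2 := (sq_abs _).symm
      rw [h2]
      exact pow_le_pow_left₀ (abs_nonneg _) h1 2)
    (fun i => (hLi i).1) (fun i => (hLi i).2.1) (fun i => (hLi i).2.2.trans hb5)
  -- the determinant over the reals
  set N : Matrix (Fin 6) (Fin 6) ℝ := Matrix.of fun i j : Fin 6 =>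
    (![(x + t i) ^ 2, (x + t i) * (y + u i), (y + u i) ^ 2, x + t i, y + u i, 1] : Fin 6 → ℝ) j
    with hN
  have hcast : ((Matrix.det (Matrix.of fun i j : Fin 6 => ver (p i) j) : ℤ) : ℝ) =
      (∏ i, ((p i).2.2 : ℝ) ^ 2) * N.det := by
    rw [← Matrix.det_mul_column, Int.cast_det]
    congr 1
    ext i j
    simp only [Matrix.map_apply, Matrix.of_apply, hN]
    rw [ver_row (z_ne hP (hp i)) j]
    have hxt : x + t i = xi (p i) := by simp [ht]
    have hyu : y + u i = et (p i) := by simp [hu]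
    rw [hxt, hyu]
  have hprod : (∏ i, ((p i).2.2 : ℝ) ^ 2) ≤ B ^ 12 := by
    have h1 : ∏ i : Fin 6, ((p i).2.2 : ℝ) ^ 2 ≤ ∏ i : Fin 6, B ^ 2 := by
      apply Finset.prod_le_prod
      · intro i _; positivity
      · intro i _
        rw [← sq_abs]
        exact pow_le_pow_left₀ (abs_nonneg _) (hp i).z_le 2
    refine h1.trans (le_of_eq ?_)
    simp only [Finset.prod_const, Finset.card_univ, Fintype.card_fin]
    ring
  have hprod0 : 0 ≤ ∏ i, ((p i).2.2 : ℝ) ^ 2 := Finset.prod_nonneg fun i _ => by positivity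
  have hlt : |((Matrix.det (Matrix.of fun i j : Fin 6 => ver (p i) j) : ℤ) : ℝ)| < 1 := by
    rw [hcast, abs_mul, abs_of_nonneg hprod0]
    have h1 : (∏ i, ((p i).2.2 : ℝ) ^ 2) * |N.det| ≤ B ^ 12 * (720 * (lam * lam ^ 2 *
        (8 * lam ^ 3 / β ^ 6) * (64 * lam ^ 4 / β ^ 12) *
        (435 * |(k : ℝ)| / (B ^ 3 * β ^ 21)))) :=
      mul_le_mul hprod hdet (abs_nonneg _) (by positivity)
    refine lt_of_le_of_lt h1 ?_
    have h2 : B ^ 12 * (720 * (lam * lam ^ 2 *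
        (8 * lam ^ 3 / β ^ 6) * (64 * lam ^ 4 / β ^ 12) *
        (435 * |(k : ℝ)| / (B ^ 3 * β ^ 21)))) =
        (160358400 * |(k : ℝ)| * B ^ 9 * lam ^ 10) / β ^ 39 := by
      field_simp
      ring
    rw [h2, div_lt_one (by positivity)]
    exact hP.dt
  have h3 : |(Matrix.det (Matrix.of fun i j : Fin 6 => ver (p i) j) : ℤ)| < 1 := by
    exact_mod_cast hlt
  exact Int.abs_lt_one_iff.mp h3

end Pool.Agent.Helper96.PW
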